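import Mathlib

/-!
# Degree-preserving amalgamation of real zero polynomials fails in two shared variables

The cubic real zero polynomials
`p = (1 - x₁) ((1 + x₁) (2 - x₁) + y) - x₂²` and `q = (2 - x₁) ((1 + x₁) (1 - x₁) + z) - x₂²`
agree on `y = 0`, `z = 0`, but no real zero polynomial `r` in `x₁, x₂, y, z` of degree at most `3`
restricts to both of them.
-/

set_option autoImplicit false

namespace Pool.Agent.Results.MP_eea824_ag.CubicNoAmalgam

open MvPolynomial

/-- A real polynomial `f` is a real zero polynomial if for every real point `a` and every complex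
number `l` with `f (l a) = 0`, the number `l` is real. -/
def RealZero {σ : Type} (f : MvPolynomial σ ℝ) : Prop :=
  ∀ (a : σ → ℝ) (l : ℂ), aeval (fun i => l * (a i : ℂ)) f = 0 → l.im = 0

/-- `p (x, 0)` for `p` a polynomial in `x = (x₁, x₂)` and `y = (y₁, ..., y_m)`. -/
noncomputable def restr {m : ℕ} (p : MvPolynomial (Fin 2 ⊕ Fin m) ℝ) : MvPolynomial (Fin 2) ℝ :=
  aeval (Sum.elim X fun _ => 0) p

/-- `r (x, y, 0)` for `r` a polynomial in `x`, `y = (y₁, ..., y_m)` and `z = (z₁, ..., z_n)`. -/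
noncomputable def restrZ {m n : ℕ} (r : MvPolynomial (Fin 2 ⊕ Fin m ⊕ Fin n) ℝ) :
    MvPolynomial (Fin 2 ⊕ Fin m) ℝ :=
  aeval (Sum.elim (fun i => X (Sum.inl i)) (Sum.elim (fun j => X (Sum.inr j)) fun _ => 0)) r

/-- `r (x, 0, z)` for `r` a polynomial in `x`, `y = (y₁, ..., y_m)` and `z = (z₁, ..., z_n)`. -/
noncomputable def restrY {m n : ℕ} (r : MvPolynomial (Fin 2 ⊕ Fin m ⊕ Fin n) ℝ) :
    MvPolynomial (Fin 2 ⊕ Fin n) ℝ :=
  aeval (Sum.elim (fun i => X (Sum.inl i)) (Sum.elim (fun _ => 0) fun j => X (Sum.inr j))) r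

/-- The polynomial `p`. -/
noncomputable def pp : MvPolynomial (Fin 2 ⊕ Fin 1) ℝ :=
  (1 - X (Sum.inl 0)) * ((1 + X (Sum.inl 0)) * (2 - X (Sum.inl 0)) + X (Sum.inr 0)) -
    X (Sum.inl 1) ^ 2

/-- The polynomial `q`. -/
noncomputable def qq : MvPolynomial (Fin 2 ⊕ Fin 1) ℝ :=
  (2 - X (Sum.inl 0)) * ((1 + X (Sum.inl 0)) * (1 - X (Sum.inl 0)) + X (Sum.inr 0)) -
    X (Sum.inl 1) ^ 2

lemma im_div_real (c : ℝ) (s : ℂ) : ((c : ℂ) / s).im = -c * s.im / Complex.normSq s := by
  rw [Complex.div_im]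
  simp
  ring

/-- If `c s + e - x² / s - u² / (k s - x) = 0` with `c > 0`, `k > 0`, then `s` is real. -/
lemma real_of_eq (c k x u e : ℝ) (hc : 0 < c) (hk : 0 < k) (s : ℂ)
    (h : (c : ℂ) * s + e = ((x ^ 2 : ℝ) : ℂ) / s + ((u ^ 2 : ℝ) : ℂ) / (k * s - x)) :
    s.im = 0 := by
  by_contra hs
  have h1 := congrArg Complex.im h
  rw [Complex.add_im, Complex.add_im, im_div_real, im_div_real] at h1
  simp only [Complex.mul_im, Complex.ofReal_re, Complex.ofReal_im, zero_mul, add_zero,
    Complex.sub_im, sub_zero] at h1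
  have hn1 : 0 < Complex.normSq s := by
    rw [Complex.normSq_pos]
    intro h0
    exact hs (by rw [h0]; simp)
  have hn2 : 0 < Complex.normSq (k * s - x) := by
    rw [Complex.normSq_pos]
    intro h0
    have := congrArg Complex.im h0
    simp at this
    rcases this with h | h
    · exact hk.ne' h
    · exact hs h
  have h2 : s.im * (c + x ^ 2 / Complex.normSq s + u ^ 2 * k / Complex.normSq (k * s - x)) = 0 := by
    have e1 : -x ^ 2 * s.im / Complex.normSq s = -(s.im * (x ^ 2 / Complex.normSq s)) := by ring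
    have e2 : -u ^ 2 * (k * s.im) / Complex.normSq (k * s - x) =
      -(s.im * (u ^ 2 * k / Complex.normSq (k * s - x))) := by ring
    rw [e1, e2] at h1
    linear_combination h1
  have h3 : 0 < c + x ^ 2 / Complex.normSq s + u ^ 2 * k / Complex.normSq (k * s - x) := by
    positivity
  rcases mul_eq_zero.mp h2 with h | h
  · exact hs h
  · exact h3.ne' h

lemma aeval_pp (v : Fin 2 ⊕ Fin 1 → ℂ) : aeval v pp =
    (1 - v (Sum.inl 0)) * ((1 + v (Sum.inl 0)) * (2 - v (Sum.inl 0)) + v (Sum.inr 0)) -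
      v (Sum.inl 1) ^ 2 := by
  simp [pp]

lemma aeval_qq (v : Fin 2 ⊕ Fin 1 → ℂ) : aeval v qq =
    (2 - v (Sum.inl 0)) * ((1 + v (Sum.inl 0)) * (1 - v (Sum.inl 0)) + v (Sum.inr 0)) -
      v (Sum.inl 1) ^ 2 := by
  simp [qq]

lemma realZero_pp : RealZero pp := by
  intro a l h
  rw [aeval_pp] at h
  set x := a (Sum.inl 0)
  set u := a (Sum.inl 1)
  set y := a (Sum.inr 0)
  by_contra hl
  have hl0 : l ≠ 0 := by rintro rfl; exact hl (by simp)
  have hsi : (l⁻¹).im ≠ 0 := by
    intro h0
    rw [Complex.inv_im] at h0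
    rcases div_eq_zero_iff.mp h0 with h | h
    · exact hl (by linarith)
    · exact hl0 (Complex.normSq_eq_zero.mp h)
  apply hsi
  have hx : l⁻¹ - x ≠ 0 := by
    intro h0
    apply hsi
    have : l⁻¹ = x := by linear_combination h0
    rw [this]; simp
  refine real_of_eq 2 1 x u (x + y) (by norm_num) (by norm_num) l⁻¹ ?_
  have hx' : 1 - l * x ≠ 0 := by
    intro h0
    apply hx
    field_simp
    rw [h0, mul_zero]
  have h3 : ((1 : ℝ) : ℂ) * l⁻¹ - x = (1 - l * x) / l := by
    field_simp
    push_cast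
    ring
  rw [h3]
  push_cast
  field_simp
  linear_combination h

lemma realZero_qq : RealZero qq := by
  intro a l h
  rw [aeval_qq] at h
  set x := a (Sum.inl 0)
  set u := a (Sum.inl 1)
  set y := a (Sum.inr 0)
  by_contra hl
  have hl0 : l ≠ 0 := by rintro rfl; exact hl (by simp)
  have hsi : (l⁻¹).im ≠ 0 := by
    intro h0
    rw [Complex.inv_im] at h0
    rcases div_eq_zero_iff.mp h0 with h | h
    · exact hl (by linarith)
    · exact hl0 (Complex.normSq_eq_zero.mp h)
  apply hsi
  have hx' : 2 - l * x ≠ 0 := by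
    intro h0
    apply hsi
    have : l⁻¹ = ((x / 2 : ℝ) : ℂ) := by
      push_cast
      field_simp
      linear_combination h0
    rw [this]; simp
  refine real_of_eq 1 2 x u y (by norm_num) (by norm_num) l⁻¹ ?_
  have h3 : ((2 : ℝ) : ℂ) * l⁻¹ - x = (2 - l * x) / l := by
    field_simp
    push_cast
    ring
  rw [h3]
  push_cast
  field_simp
  linear_combination h

/-! ### The shape of a possible amalgam -/

/-- The variables of the amalgam: `x₁, x₂, y, z`. -/
abbrev V : Type := Fin 2 ⊕ Fin 1 ⊕ Fin 1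

/-- The variable `x₁`. -/
abbrev vx : V := Sum.inl 0
/-- The variable `x₂`. -/
abbrev vu : V := Sum.inl 1
/-- The variable `y`. -/
abbrev vy : V := Sum.inr (Sum.inl 0)
/-- The variable `z`. -/
abbrev vz : V := Sum.inr (Sum.inr 0)

lemma sub_mem_of_forall (φ : MvPolynomial V ℝ →ₐ[ℝ] MvPolynomial V ℝ) (I : Ideal (MvPolynomial V ℝ))
    (h : ∀ i, X i - φ (X i) ∈ I) (w : MvPolynomial V ℝ) : w - φ w ∈ I := by
  have h1 : (Ideal.Quotient.mkₐ ℝ I).comp φ = Ideal.Quotient.mkₐ ℝ I := by
    ext i
    simp only [AlgHom.comp_apply, Ideal.Quotient.mkₐ_eq_mk]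
    symm
    rw [Ideal.Quotient.eq]
    exact h i
  have h2 := DFunLike.congr_fun h1 w
  simp only [AlgHom.comp_apply, Ideal.Quotient.mkₐ_eq_mk] at h2
  symm at h2
  rwa [Ideal.Quotient.eq] at h2

lemma support_z (w : MvPolynomial V ℝ) (h : restrZ (m := 1) (n := 1) w = 0) :
    ∀ m ∈ w.support, m vz ≠ 0 := by
  have h1 : w ∈ Ideal.span (X '' ({vz} : Set V)) := by
    have h2 := sub_mem_of_forall ((rename (Sum.elim Sum.inl (fun j => Sum.inr (Sum.inl j)) :
      Fin 2 ⊕ Fin 1 → V)).comp (aeval (Sum.elim (fun i => X (Sum.inl i))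
        (Sum.elim (fun j => X (Sum.inr j)) fun _ => 0)))) (Ideal.span (X '' ({vz} : Set V))) ?_ w
    · have h3 : ((rename (Sum.elim Sum.inl (fun j => Sum.inr (Sum.inl j)) :
      Fin 2 ⊕ Fin 1 → V)).comp (aeval (Sum.elim (fun i => X (Sum.inl i))
        (Sum.elim (fun j => X (Sum.inr j)) fun _ => 0)))) w = (0 : MvPolynomial V ℝ) := by
        rw [AlgHom.comp_apply]
        unfold restrZ at h
        rw [h, map_zero]
      rw [h3, sub_zero] at h2
      exact h2
    · rintro (i | j | k)
      · simp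
      · simp
      · simp only [AlgHom.comp_apply, aeval_X, Sum.elim_inr, map_zero, sub_zero]
        apply Ideal.subset_span
        have : k = 0 := Subsingleton.elim _ _
        subst this
        simp
  rw [mem_ideal_span_X_image] at h1
  intro m hm
  obtain ⟨i, hi, h2⟩ := h1 m hm
  rw [Set.mem_singleton_iff] at hi
  rwa [hi] at h2

lemma support_y (w : MvPolynomial V ℝ) (h : restrY (m := 1) (n := 1) w = 0) :
    ∀ m ∈ w.support, m vy ≠ 0 := by
  have h1 : w ∈ Ideal.span (X '' ({vy} : Set V)) := by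
    have h2 := sub_mem_of_forall ((rename (Sum.elim Sum.inl (fun j => Sum.inr (Sum.inr j)) :
      Fin 2 ⊕ Fin 1 → V)).comp (aeval (Sum.elim (fun i => X (Sum.inl i))
        (Sum.elim (fun _ => 0) fun j => X (Sum.inr j))))) (Ideal.span (X '' ({vy} : Set V))) ?_ w
    · have h3 : ((rename (Sum.elim Sum.inl (fun j => Sum.inr (Sum.inr j)) :
      Fin 2 ⊕ Fin 1 → V)).comp (aeval (Sum.elim (fun i => X (Sum.inl i))
        (Sum.elim (fun _ => 0) fun j => X (Sum.inr j))))) w = (0 : MvPolynomial V ℝ) := by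
        rw [AlgHom.comp_apply]
        unfold restrY at h
        rw [h, map_zero]
      rw [h3, sub_zero] at h2
      exact h2
    · rintro (i | j | k)
      · simp
      · simp only [AlgHom.comp_apply, aeval_X, Sum.elim_inr, Sum.elim_inl, map_zero, sub_zero]
        apply Ideal.subset_span
        have : j = 0 := Subsingleton.elim _ _
        subst this
        simp
      · simp
  rw [mem_ideal_span_X_image] at h1
  intro m hm
  obtain ⟨i, hi, h2⟩ := h1 m hm
  rw [Set.mem_singleton_iff] at hi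
  rwa [hi] at h2

lemma sum_four (m : V →₀ ℕ) : (m.sum fun _ e => e) = m vx + m vu + m vy + m vz := by
  rw [Finsupp.sum_fintype _ _ (by simp)]
  simp [Fintype.sum_sum_type]
  ring

lemma shape (w : MvPolynomial V ℝ) (hd : w.totalDegree ≤ 3) (hz : restrZ (m := 1) (n := 1) w = 0)
    (hy : restrY (m := 1) (n := 1) w = 0) : ∃ a b c d e : ℝ, ∀ v : V → ℂ,
    aeval v w = v vy * v vz * (a + b * v vx + c * v vu + d * v vy + e * v vz) := by
  classical
  have hsz := support_z w hz
  have hsy := support_y w hy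
  let S : Finset (V →₀ ℕ) := {Finsupp.single vy 1 + Finsupp.single vz 1,
    Finsupp.single vy 1 + Finsupp.single vz 1 + Finsupp.single vx 1,
    Finsupp.single vy 1 + Finsupp.single vz 1 + Finsupp.single vu 1,
    Finsupp.single vy 1 + Finsupp.single vz 1 + Finsupp.single vy 1,
    Finsupp.single vy 1 + Finsupp.single vz 1 + Finsupp.single vz 1}
  have hS : w.support ⊆ S := by
    intro m hm
    have h1 := hsz m hm
    have h2 := hsy m hm
    have h3 : (m.sum fun _ e => e) ≤ 3 := (le_totalDegree hm).trans hd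
    rw [sum_four] at h3
    have key : ∀ m' : V →₀ ℕ, m vx = m' vx → m vu = m' vu → m vy = m' vy → m vz = m' vz →
        m = m' := by
      intro m' e1 e2 e3 e4
      ext i
      rcases i with i | i | i
      · fin_cases i
        · exact e1
        · exact e2
      · have : i = 0 := Subsingleton.elim _ _
        subst this; exact e3
      · have : i = 0 := Subsingleton.elim _ _
        subst this; exact e4
    have h4 : (m vx = 0 ∧ m vu = 0 ∧ m vy = 1 ∧ m vz = 1) ∨
        (m vx = 1 ∧ m vu = 0 ∧ m vy = 1 ∧ m vz = 1) ∨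
        (m vx = 0 ∧ m vu = 1 ∧ m vy = 1 ∧ m vz = 1) ∨
        (m vx = 0 ∧ m vu = 0 ∧ m vy = 2 ∧ m vz = 1) ∨
        (m vx = 0 ∧ m vu = 0 ∧ m vy = 1 ∧ m vz = 2) := by omega
    simp only [S, Finset.mem_insert, Finset.mem_singleton]
    rcases h4 with ⟨e1, e2, e3, e4⟩ | ⟨e1, e2, e3, e4⟩ | ⟨e1, e2, e3, e4⟩ | ⟨e1, e2, e3, e4⟩ |
      ⟨e1, e2, e3, e4⟩
    · left; apply key <;> simp [e1, e2, e3, e4]
    · right; left; apply key <;> simp [e1, e2, e3, e4]
    · right; right; left; apply key <;> simp [e1, e2, e3, e4]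
    · right; right; right; left; apply key <;> simp [e1, e2, e3, e4]
    · right; right; right; right; apply key <;> simp [e1, e2, e3, e4]
  have hsum : ∀ v : V → ℂ, aeval v w =
      ∑ m ∈ S, (algebraMap ℝ ℂ (coeff m w)) * ∏ i : V, v i ^ m i := by
    intro v
    rw [aeval_def, eval₂_eq']
    apply Finset.sum_subset hS
    intro m _ hm
    rw [notMem_support_iff.mp hm]
    simp
  have hne : ∀ m m' : V →₀ ℕ, (m vx ≠ m' vx ∨ m vu ≠ m' vu ∨ m vy ≠ m' vy ∨ m vz ≠ m' vz) →
      m ≠ m' := by
    rintro m m' h rfl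
    simp at h
  refine ⟨coeff (Finsupp.single vy 1 + Finsupp.single vz 1) w,
    coeff (Finsupp.single vy 1 + Finsupp.single vz 1 + Finsupp.single vx 1) w,
    coeff (Finsupp.single vy 1 + Finsupp.single vz 1 + Finsupp.single vu 1) w,
    coeff (Finsupp.single vy 1 + Finsupp.single vz 1 + Finsupp.single vy 1) w,
    coeff (Finsupp.single vy 1 + Finsupp.single vz 1 + Finsupp.single vz 1) w, ?_⟩
  intro v
  rw [hsum]
  simp only [S]
  rw [Finset.sum_insert, Finset.sum_insert, Finset.sum_insert, Finset.sum_insert,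
    Finset.sum_singleton]
  · simp only [Fintype.prod_sum_type, Fin.prod_univ_two, Fin.prod_univ_one, Finsupp.add_apply,
      Finsupp.single_apply, Complex.coe_algebraMap]
    simp
    ring
  all_goals
    simp only [Finset.mem_insert, Finset.mem_singleton, not_or]
    try refine ⟨?_, ?_, ?_, ?_⟩
    try refine ⟨?_, ?_, ?_⟩
    try refine ⟨?_, ?_⟩
    all_goals
      apply hne
      simp

/-! ### Real-rooted cubics -/

/-- If all complex roots of `2 s³ + B s² + C s + D` are real then `3 B D ≤ C²`. -/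
lemma newton (B C D : ℝ) (h : ∀ s : ℂ, 2 * s ^ 3 + B * s ^ 2 + C * s + D = 0 → s.im = 0) :
    3 * B * D ≤ C ^ 2 := by
  obtain ⟨r1, h1⟩ := IsAlgClosed.exists_root (k := ℂ)
    (Polynomial.C 2 * Polynomial.X ^ 3 + Polynomial.C (B : ℂ) * Polynomial.X ^ 2 +
      Polynomial.C (C : ℂ) * Polynomial.X + Polynomial.C (D : ℂ)) (by
    have : (Polynomial.C 2 * Polynomial.X ^ 3 + Polynomial.C (B : ℂ) * Polynomial.X ^ 2 +
      Polynomial.C (C : ℂ) * Polynomial.X + Polynomial.C (D : ℂ)).degree = 3 := by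
      compute_degree!
    rw [this]; norm_num)
  simp only [Polynomial.IsRoot.def, Polynomial.eval_add, Polynomial.eval_mul, Polynomial.eval_C,
    Polynomial.eval_pow, Polynomial.eval_X] at h1
  obtain ⟨r2, h2⟩ := IsAlgClosed.exists_root (k := ℂ)
    (Polynomial.C 2 * Polynomial.X ^ 2 + Polynomial.C ((B : ℂ) + 2 * r1) * Polynomial.X +
      Polynomial.C ((C : ℂ) + (B + 2 * r1) * r1)) (by
    have : (Polynomial.C 2 * Polynomial.X ^ 2 + Polynomial.C ((B : ℂ) + 2 * r1) * Polynomial.X +
      Polynomial.C ((C : ℂ) + (B + 2 * r1) * r1)).degree = 2 := by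
      compute_degree!
    rw [this]; norm_num)
  simp only [Polynomial.IsRoot.def, Polynomial.eval_add, Polynomial.eval_mul, Polynomial.eval_C,
    Polynomial.eval_pow, Polynomial.eval_X] at h2
  set r3 : ℂ := -B / 2 - r1 - r2 with hr3
  have hB : (B : ℂ) = -2 * (r1 + r2 + r3) := by rw [hr3]; ring
  have hC : (C : ℂ) = 2 * (r1 * r2 + r1 * r3 + r2 * r3) := by
    rw [hr3]; linear_combination h2
  have hD : (D : ℂ) = -2 * (r1 * r2 * r3) := by
    rw [hr3]; linear_combination h1 - r1 * h2
  have i1 := h r1 h1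
  have i2 := h r2 (by rw [hB, hC, hD]; ring)
  have i3 := h r3 (by rw [hB, hC, hD]; ring)
  obtain ⟨a1, rfl⟩ : ∃ a : ℝ, r1 = a := ⟨r1.re, by apply Complex.ext <;> simp [i1]⟩
  obtain ⟨a2, rfl⟩ : ∃ a : ℝ, r2 = a := ⟨r2.re, by apply Complex.ext <;> simp [i2]⟩
  obtain ⟨a3, h3⟩ : ∃ a : ℝ, r3 = a := ⟨r3.re, by apply Complex.ext <;> simp [i3]⟩
  rw [h3] at hB hC hD
  have hB' : B = -2 * (a1 + a2 + a3) := by exact_mod_cast hB
  have hC' : C = 2 * (a1 * a2 + a1 * a3 + a2 * a3) := by exact_mod_cast hC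
  have hD' : D = -2 * (a1 * a2 * a3) := by exact_mod_cast hD
  rw [hB', hC', hD']
  nlinarith [sq_nonneg (a1 * a2 - a1 * a3), sq_nonneg (a1 * a2 - a2 * a3),
    sq_nonneg (a1 * a3 - a2 * a3)]

/-- A cubic polynomial function which is nonnegative everywhere has no cubic term. -/
lemma cubic_lead (A B C D : ℝ) (h : ∀ t : ℝ, 0 ≤ A * t ^ 3 + B * t ^ 2 + C * t + D) : A = 0 := by
  have key : ∀ A B C D : ℝ, 0 < A → ∃ t : ℝ, A * t ^ 3 + B * t ^ 2 + C * t + D < 0 := by
    intro A B C D hA
    set M := |B| + |C| + |D| with hM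
    have hM0 : 0 ≤ M := by positivity
    set t := 1 + M / A with ht
    have ht1 : 1 ≤ t := by
      rw [ht]
      have : 0 ≤ M / A := by positivity
      linarith
    have hAt : A * t = A + M := by
      rw [ht]; field_simp
    refine ⟨-t, ?_⟩
    have e1 : B * t ^ 2 ≤ |B| * t ^ 2 := by
      apply mul_le_mul_of_nonneg_right (le_abs_self B) (by positivity)
    have e2 : -C * t ≤ |C| * t ^ 2 := by
      have h1 : -C * t ≤ |C| * t := mul_le_mul_of_nonneg_right (neg_le_abs C) (by linarith)
      have h2 : |C| * t ≤ |C| * t ^ 2 := by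
        apply mul_le_mul_of_nonneg_left _ (abs_nonneg C)
        nlinarith
      linarith
    have e3 : D ≤ |D| * t ^ 2 := by
      have h1 : D ≤ |D| := le_abs_self D
      have h2 : |D| * 1 ≤ |D| * t ^ 2 := by
        apply mul_le_mul_of_nonneg_left _ (abs_nonneg D)
        nlinarith
      linarith
    have e4 : A * t ^ 3 = (A + M) * t ^ 2 := by rw [← hAt]; ring
    have e5 : 0 < A * t ^ 2 := by positivity
    have e6 : M * t ^ 2 = |B| * t ^ 2 + |C| * t ^ 2 + |D| * t ^ 2 := by rw [hM]; ring
    nlinarith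
  rcases lt_trichotomy A 0 with hA | hA | hA
  · obtain ⟨t, ht⟩ := key (-A) B (-C) D (by linarith)
    have := h (-t)
    exfalso
    have e : A * (-t) ^ 3 + B * (-t) ^ 2 + C * (-t) + D = -A * t ^ 3 + B * t ^ 2 + -C * t + D := by
      ring
    linarith
  · exact hA
  · obtain ⟨t, ht⟩ := key A B C D hA
    have := h t
    linarith

/-- The real inequalities coming from Newton's inequality are contradictory. -/
lemma contradiction_core (a b c d e : ℝ)
    (h : ∀ x u y z : ℝ, 3 * (-x + y + 2 * z) * (x ^ 3 + y * z * (b * x + c * u + d * y + e * z)) ≤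
      (-2 * x ^ 2 - u ^ 2 - x * y - x * z + a * (y * z)) ^ 2) : False := by
  have hd : d = 0 := by
    have := cubic_lead (-3 * d) (a ^ 2 - 3 * e - 6 * d) (-6 * e) 0 (by
      intro t
      have := h 0 0 t 1
      nlinarith)
    linarith
  have he : e = 0 := by
    have := cubic_lead (-6 * e) (a ^ 2 - 3 * e - 6 * d) (-3 * d) 0 (by
      intro t
      have := h 0 0 1 t
      nlinarith)
    linarith
  subst hd he
  have hc : c = 0 := by
    have h1 : ∀ t : ℝ, t ≠ 0 → 3 * c * (t + 2 * t⁻¹) ≤ (a - 1) ^ 2 := by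
      intro t ht
      have := h 0 1 t t⁻¹
      rw [mul_inv_cancel₀ ht] at this
      nlinarith
    by_contra hc
    have h2 := h1 (((a - 1) ^ 2 + 1) / (3 * c)) (by positivity)
    have h3 : 3 * c * (((a - 1) ^ 2 + 1) / (3 * c)) = (a - 1) ^ 2 + 1 := by
      field_simp
    have h4 : 0 < 3 * c * (2 * (((a - 1) ^ 2 + 1) / (3 * c))⁻¹) := by
      have : 3 * c * (2 * (((a - 1) ^ 2 + 1) / (3 * c))⁻¹) =
          2 * (3 * c) ^ 2 * ((a - 1) ^ 2 + 1)⁻¹ := by
        field_simp
      rw [this]
      positivity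
    nlinarith
  subst hc
  -- the case of vanishing linear coefficient
  have key : ∀ x y z : ℝ, 0 ≤ -2 * x ^ 2 - x * y - x * z + a * (y * z) →
      (-x + y + 2 * z) * (x ^ 3 + b * x * (y * z)) ≤ 0 := by
    intro x y z hK
    have h1 := h x (Real.sqrt (-2 * x ^ 2 - x * y - x * z + a * (y * z))) y z
    rw [Real.sq_sqrt hK] at h1
    nlinarith
  rcases lt_trichotomy a 0 with ha | ha | ha
  · -- a < 0
    have h2 : ∀ t : ℝ, 3 ≤ t → 11 ≤ -a * t → b * t ^ 2 = 4 := by
      intro t ht1 ht2
      have k1 := key 1 t (-t / 4) (by nlinarith)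
      have k2 := key (-1) t (-t / 4) (by nlinarith)
      have k3 : 1 - b * t ^ 2 / 4 ≤ 0 := by
        by_contra hcon
        push Not at hcon
        have : 0 < (-1 + t + 2 * (-t / 4)) * (1 ^ 3 + b * 1 * (t * (-t / 4))) := by
          apply mul_pos
          · linarith
          · nlinarith
        linarith
      have k4 : 0 ≤ 1 - b * t ^ 2 / 4 := by
        by_contra hcon
        push Not at hcon
        have : 0 < (-(-1) + t + 2 * (-t / 4)) * ((-1) ^ 3 + b * (-1) * (t * (-t / 4))) := by
          apply mul_pos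
          · linarith
          · nlinarith
        linarith
      linarith
    set T := 3 + 11 / (-a) with hT
    have hT0 : 0 < 11 / (-a) := by
      apply div_pos (by norm_num) (by linarith)
    have hT1 : -a * T = -a * 3 + 11 := by
      have hna : -a ≠ 0 := by linarith
      rw [hT, mul_add, mul_div_cancel₀ _ hna]
    have e1 := h2 T (by linarith) (by linarith)
    have e2 := h2 (2 * T) (by linarith) (by nlinarith)
    nlinarith
  · -- a = 0
    subst ha
    have h3 : ∀ t : ℝ, 3 < t → 1 ≤ b * (t * (t + 2)) := by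
      intro t ht
      have k1 := key 1 (-2 - t) t (by nlinarith)
      by_contra hcon
      push Not at hcon
      have : 0 < (-1 + (-2 - t) + 2 * t) * (1 ^ 3 + b * 1 * ((-2 - t) * t)) := by
        apply mul_pos
        · linarith
        · nlinarith
      linarith
    have h4 : ∀ t : ℝ, 0 < t → b * (t * (t - 2)) ≤ 1 := by
      intro t ht
      have k1 := key 1 (-2 + t) (-t) (by nlinarith)
      by_contra hcon
      push Not at hcon
      have : 0 < (-1 + (-2 + t) + 2 * (-t)) * (1 ^ 3 + b * 1 * ((-2 + t) * (-t))) := by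
        apply mul_pos_of_neg_of_neg
        · linarith
        · nlinarith
      linarith
    have h5 := h3 4 (by norm_num)
    have h6 := h4 10 (by norm_num)
    nlinarith
  · -- a > 0
    have h2 : ∀ t : ℝ, 1 ≤ t → 4 ≤ a * t → b * t ^ 2 = -1 := by
      intro t ht1 ht2
      have k1 := key 1 t t (by nlinarith)
      have k2 := key (-1) t t (by nlinarith)
      have k3 : 1 + b * t ^ 2 ≤ 0 := by
        by_contra hcon
        push Not at hcon
        have : 0 < (-1 + t + 2 * t) * (1 ^ 3 + b * 1 * (t * t)) := by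
          apply mul_pos
          · linarith
          · nlinarith
        linarith
      have k4 : 0 ≤ 1 + b * t ^ 2 := by
        by_contra hcon
        push Not at hcon
        have : 0 < (-(-1) + t + 2 * t) * ((-1) ^ 3 + b * (-1) * (t * t)) := by
          apply mul_pos
          · linarith
          · nlinarith
        linarith
      linarith
    set T := 1 + 4 / a with hT
    have hT0 : 0 < 4 / a := by positivity
    have hT1 : a * T = a + 4 := by
      rw [hT]; field_simp
    have e1 := h2 T (by linarith) (by linarith)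
    have e2 := h2 (2 * T) (by linarith) (by nlinarith)
    nlinarith

/-! ### The counterexample -/

/-- The common values of `r` along `yz = 0`. -/
noncomputable def base : MvPolynomial V ℝ :=
  (1 - X vx) * (1 + X vx) * (2 - X vx) - X vu ^ 2 + X vy * (1 - X vx) + X vz * (2 - X vx)

lemma restrZ_base : restrZ (m := 1) (n := 1) base = pp := by
  unfold restrZ base pp
  simp only [map_sub, map_add, map_mul, map_pow, map_one, map_ofNat, aeval_X, Sum.elim_inl,
    Sum.elim_inr]
  ring

lemma restrY_base : restrY (m := 1) (n := 1) base = qq := by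
  unfold restrY base qq
  simp only [map_sub, map_add, map_mul, map_pow, map_one, map_ofNat, aeval_X, Sum.elim_inl,
    Sum.elim_inr]
  ring

lemma totalDegree_X_le {σ : Type} (i : σ) : (X i : MvPolynomial σ ℝ).totalDegree ≤ 1 :=
  (totalDegree_X i).le

lemma totalDegree_two_sub {σ : Type} (i : σ) : (2 - X i : MvPolynomial σ ℝ).totalDegree ≤ 1 := by
  refine (totalDegree_sub _ _).trans (max_le ?_ (totalDegree_X_le i))
  have : (2 : MvPolynomial σ ℝ) = C 2 := (map_ofNat C 2).symm
  rw [this, totalDegree_C]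
  exact Nat.zero_le _

lemma totalDegree_one_sub {σ : Type} (i : σ) : (1 - X i : MvPolynomial σ ℝ).totalDegree ≤ 1 := by
  refine (totalDegree_sub _ _).trans (max_le ?_ (totalDegree_X_le i))
  rw [totalDegree_one]
  exact Nat.zero_le _

lemma totalDegree_one_add {σ : Type} (i : σ) : (1 + X i : MvPolynomial σ ℝ).totalDegree ≤ 1 := by
  refine (totalDegree_add _ _).trans (max_le ?_ (totalDegree_X_le i))
  rw [totalDegree_one]
  exact Nat.zero_le _

lemma totalDegree_sq {σ : Type} (i : σ) : (X i ^ 2 : MvPolynomial σ ℝ).totalDegree ≤ 3 := by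
  refine (totalDegree_pow _ _).trans ?_
  rw [totalDegree_X]
  norm_num

lemma totalDegree_pp : pp.totalDegree ≤ 3 := by
  unfold pp
  refine (totalDegree_sub _ _).trans (max_le ?_ (totalDegree_sq _))
  refine (totalDegree_mul _ _).trans ?_
  have h1 := totalDegree_one_sub (σ := Fin 2 ⊕ Fin 1) (Sum.inl 0)
  have h2 : ((1 + X (Sum.inl 0)) * (2 - X (Sum.inl 0)) + X (Sum.inr 0) :
      MvPolynomial (Fin 2 ⊕ Fin 1) ℝ).totalDegree ≤ 2 := by
    refine (totalDegree_add _ _).trans (max_le ?_ ((totalDegree_X_le _).trans (by norm_num)))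
    refine (totalDegree_mul _ _).trans ?_
    have h3 := totalDegree_one_add (σ := Fin 2 ⊕ Fin 1) (Sum.inl 0)
    have h4 := totalDegree_two_sub (σ := Fin 2 ⊕ Fin 1) (Sum.inl 0)
    omega
  omega

lemma totalDegree_qq : qq.totalDegree ≤ 3 := by
  unfold qq
  refine (totalDegree_sub _ _).trans (max_le ?_ (totalDegree_sq _))
  refine (totalDegree_mul _ _).trans ?_
  have h1 := totalDegree_two_sub (σ := Fin 2 ⊕ Fin 1) (Sum.inl 0)
  have h2 : ((1 + X (Sum.inl 0)) * (1 - X (Sum.inl 0)) + X (Sum.inr 0) :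
      MvPolynomial (Fin 2 ⊕ Fin 1) ℝ).totalDegree ≤ 2 := by
    refine (totalDegree_add _ _).trans (max_le ?_ ((totalDegree_X_le _).trans (by norm_num)))
    refine (totalDegree_mul _ _).trans ?_
    have h3 := totalDegree_one_add (σ := Fin 2 ⊕ Fin 1) (Sum.inl 0)
    have h4 := totalDegree_one_sub (σ := Fin 2 ⊕ Fin 1) (Sum.inl 0)
    omega
  omega

lemma totalDegree_base : base.totalDegree ≤ 3 := by
  unfold base
  refine (totalDegree_add _ _).trans (max_le ?_ ?_)
  · refine (totalDegree_add _ _).trans (max_le ?_ ?_)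
    · refine (totalDegree_sub _ _).trans (max_le ?_ (totalDegree_sq _))
      refine (totalDegree_mul _ _).trans ?_
      have h1 := totalDegree_mul (1 - X vx : MvPolynomial V ℝ) (1 + X vx)
      have h2 := totalDegree_one_sub (σ := V) vx
      have h3 := totalDegree_one_add (σ := V) vx
      have h4 := totalDegree_two_sub (σ := V) vx
      omega
    · refine (totalDegree_mul _ _).trans ?_
      have h1 := totalDegree_X_le (σ := V) vy
      have h2 := totalDegree_one_sub (σ := V) vx
      omega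
  · refine (totalDegree_mul _ _).trans ?_
    have h1 := totalDegree_X_le (σ := V) vz
    have h2 := totalDegree_two_sub (σ := V) vx
    omega

lemma restr_eq : restr pp = restr qq := by
  unfold restr pp qq
  simp
  ring

lemma no_amalgam (r : MvPolynomial V ℝ) (hr : RealZero r) (hd : r.totalDegree ≤ 3)
    (hZ : restrZ (m := 1) (n := 1) r = pp) (hY : restrY (m := 1) (n := 1) r = qq) : False := by
  obtain ⟨a, b, c, d, e, habc⟩ := shape (r - base)
    ((totalDegree_sub _ _).trans (max_le hd totalDegree_base))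
    (by
      have : restrZ (m := 1) (n := 1) (r - base) = restrZ r - restrZ base := by
        unfold restrZ; exact map_sub _ _ _
      rw [this, hZ, restrZ_base, sub_self])
    (by
      have : restrY (m := 1) (n := 1) (r - base) = restrY r - restrY base := by
        unfold restrY; exact map_sub _ _ _
      rw [this, hY, restrY_base, sub_self])
  have hval : ∀ v : V → ℂ, aeval v r =
      (1 - v vx) * (1 + v vx) * (2 - v vx) - v vu ^ 2 + v vy * (1 - v vx) + v vz * (2 - v vx) +
        v vy * v vz * (a + b * v vx + c * v vu + d * v vy + e * v vz) := by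
    intro v
    have h1 := habc v
    rw [map_sub] at h1
    have h2 : aeval v base =
      (1 - v vx) * (1 + v vx) * (2 - v vx) - v vu ^ 2 + v vy * (1 - v vx) + v vz * (2 - v vx) := by
      simp [base]
    rw [h2] at h1
    linear_combination h1
  refine contradiction_core a b c d e ?_
  intro x u y z
  have h1 := newton (-x + y + 2 * z) (-2 * x ^ 2 - u ^ 2 - x * y - x * z + a * (y * z))
    (x ^ 3 + y * z * (b * x + c * u + d * y + e * z)) ?_
  · linarith
  intro s hs
  by_cases hs0 : s = 0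
  · rw [hs0]; simp
  have h2 := hr (Sum.elim ![x, u] (Sum.elim (fun _ => y) (fun _ => z))) s⁻¹ ?_
  · rw [Complex.inv_im, div_eq_zero_iff] at h2
    rcases h2 with h2 | h2
    · linarith
    · exact absurd (Complex.normSq_eq_zero.mp h2) hs0
  · rw [hval]
    simp only [Sum.elim_inl, Sum.elim_inr, Matrix.cons_val_zero, Matrix.cons_val_one]
    push_cast at hs
    field_simp
    linear_combination hs

/-- **The degree-preserving amalgamation conjecture in two shared variables is false**, already for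
`d = 3` and `m = n = 1`: there are real zero polynomials `p ∈ ℝ[x₁, x₂, y]` and
`q ∈ ℝ[x₁, x₂, z]` of degree at most `3` with `p (x, 0) = q (x, 0)` such that no real zero
polynomial `r ∈ ℝ[x₁, x₂, y, z]` of degree at most `3` satisfies `r (x, y, 0) = p` and
`r (x, 0, z) = q`. -/
theorem result : ∃ p q : MvPolynomial (Fin 2 ⊕ Fin 1) ℝ, RealZero p ∧ RealZero q ∧
    p.totalDegree ≤ 3 ∧ q.totalDegree ≤ 3 ∧ restr p = restr q ∧
    ¬ ∃ r : MvPolynomial (Fin 2 ⊕ Fin 1 ⊕ Fin 1) ℝ, RealZero r ∧ r.totalDegree ≤ 3 ∧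
      restrZ r = p ∧ restrY r = q :=
  ⟨pp, qq, realZero_pp, realZero_qq, totalDegree_pp, totalDegree_qq, restr_eq,
    fun ⟨r, h1, h2, h3, h4⟩ => no_amalgam r h1 h2 h3 h4⟩

end Pool.Agent.Results.MP_eea824_ag.CubicNoAmalgam
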